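import Pool.Agent.X31.C3

/-!
# Sums of two distinct and extremely close primes: the exact order of magnitude

For how many `n` in an interval `(M, M + Z]` is `2 n = p + q` with two distinct primes `p < q` of a difference of at
most `H`? There are about `H Z / log ^ 2 Z` pairs of primes at most, so that a positive proportion of the `n` can be
obtained only for `H` of size at least `log ^ 2 Z`. We prove that this is enough, and that the number of these `n` has
the order of magnitude `min (H / log ^ 2 Z, 1) Z` in the whole range `H ≥ C log Z`; the lower bound holds for the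
elements of an arbitrary set `S` of primes which contains a positive proportion of `Z / log Z` elements of
`(M, M + Z]`, where `M` is arbitrary.

Method: the number of the pairs in `S` is bounded from below by the inequality of Cauchy and Schwarz, and the number of
pairs of pairs with the same midpoint, the quadruples `n - h, n + h, n - k, n + k` of primes, from above by a sieve which
is uniform in `M`, `h` and `k` (`Pool.Agent.Y949.DK.t_SV`, starting files); the average of the singular factors over
`h, k ≤ H / 2` is bounded.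
-/

set_option autoImplicit false

namespace Pool.Agent.Results.MP_7b7e48_nt.ClosePrimes

open Finset

open Classical in
/-- The integers `n` with `M < n ≤ M + Z` such that `2 n = p + q` with elements `p < q ≤ p + H` of `S`. -/
noncomputable def Mid (S : Set ℕ) (M Z H : ℕ) : Finset ℕ :=
  (Ioc M (M + Z)).filter (fun n => ∃ p ∈ S, ∃ q ∈ S, p < q ∧ q ≤ p + H ∧ p + q = 2 * n)

open Classical in
/-- (1) There is an absolute constant `c > 0` such that for every `0 < δ ≤ 1`, all sufficiently large `Z`, all `M`, every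
set `S` of primes with at least `δ Z / log Z` elements in `(M, M + Z]` and all `H ≥ (16 / δ) log Z` there are at least
`c δ ^ 4 min (H / log ^ 2 Z, 1) Z` integers `n` in `(M, M + Z]` for which `2 n` is the sum of two distinct elements of `S`
with a difference of at most `H`. (2) For the set of all primes, all large `Z`, all `M` and all `H` there are at most
`C min (H / log ^ 2 Z, 1) Z` such integers `n`. -/
theorem result : ∃ c C : ℝ, 0 < c ∧ 0 < C ∧
    (∀ δ : ℝ, 0 < δ → δ ≤ 1 → ∃ Z₀ : ℕ, ∀ Z : ℕ, Z₀ ≤ Z → ∀ (M : ℕ) (S : Set ℕ), (∀ p ∈ S, p.Prime) →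
      δ * (Z / Real.log Z) ≤ (((Ioc M (M + Z)).filter (fun p => p ∈ S)).card : ℝ) →
      ∀ H : ℕ, 16 / δ * Real.log Z ≤ H →
      c * δ ^ 4 * (min (H / Real.log Z ^ 2) 1 * Z) ≤ ((Mid S M Z H).card : ℝ)) ∧
    (∃ Z₀ : ℕ, ∀ Z : ℕ, Z₀ ≤ Z → ∀ M H : ℕ,
      ((Mid {p | p.Prime} M Z H).card : ℝ) ≤ C * (min (H / Real.log Z ^ 2) 1 * Z)) := by
  obtain ⟨c, hc, h1⟩ := Pool.Agent.X31.close_lower
  obtain ⟨C, hC, Z₀, h2⟩ := Pool.Agent.X31.close_upper
  refine ⟨c, C, hc, hC, fun δ hδ hδ1 => ?_, Z₀, fun Z hZ M H => ?_⟩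
  · obtain ⟨Z₁, h3⟩ := h1 δ hδ hδ1
    refine ⟨Z₁, fun Z hZ M S hS hSc H hH => ?_⟩
    have h4 := h3 Z hZ M ((Ioc M (M + Z)).filter (fun p => p ∈ S)) (by
      intro p hp
      rw [mem_filter] at hp ⊢
      exact ⟨hp.1, hS p hp.2⟩) hSc H hH
    refine h4.trans ?_
    have h5 : Pool.Agent.X31.Mid ((Ioc M (M + Z)).filter (fun p => p ∈ S)) M Z H ⊆ Mid S M Z H := by
      intro n hn
      unfold Pool.Agent.X31.Mid at hn
      unfold Mid
      rw [mem_filter] at hn ⊢
      obtain ⟨hn1, p, hp, q, hq, h6⟩ := hn
      exact ⟨hn1, p, (mem_filter.1 hp).2, q, (mem_filter.1 hq).2, h6⟩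
    exact_mod_cast card_le_card h5
  · refine le_trans ?_ (h2 Z hZ M H)
    have h5 : Mid {p | p.Prime} M Z H ⊆ (Ioc M (M + Z)).filter (fun n => ∃ p q : ℕ, p.Prime ∧ q.Prime ∧
        p < q ∧ q ≤ p + H ∧ p + q = 2 * n) := by
      intro n hn
      unfold Mid at hn
      rw [mem_filter] at hn ⊢
      obtain ⟨hn1, p, hp, q, hq, h6⟩ := hn
      exact ⟨hn1, p, q, hp, hq, h6⟩
    exact_mod_cast card_le_card h5

end Pool.Agent.Results.MP_7b7e48_nt.ClosePrimes
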