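import Pool.Agent.X29.GOD.Main

/-!
# Sums of two different primes in very short intervals, or almost all even numbers are differences

Let `g(n)` be the number of the pairs of primes `p > n > q` with `p + q = 2 n`, the number of the question, and `d(x, h)`
the number of the primes `p ≤ x` with `p + h` prime.  For every `ε > 0` there are `K` and `C` such that for every `η > 0`,
every large `N` and all `u`, `L` with `C (u + L) ≤ N` one of the following holds:

(A) all `k` in `(u, u + L]` except at most `8 K L ^ (1 - 1 / K)` satisfy `d(12 N, 2 k) ≥ N ^ (1 - η)`;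

(B) in EVERY interval `[b, b + H)` with `N ≤ b ≤ 2 N`, `C (u + L) ≤ H ≤ N / C`, the `n` with `g(n) ≥ N ^ (1 - η)` have
proportion at least `1 / 6 - ε`; and in every such interval with `C (u + L) ≤ b ≤ 2 N` the `n` with
`d(12 N, 2 n) ≥ N ^ (1 - η)` have proportion at least `1 / 6 - ε`.

The length `H` does not grow with `N` if `u` and `L` do not.  The proof rests on the coloured Maynard-Tao theorem above one
quarter of the starting repository (design and proof: helper899): of any four classes of admissible linear forms two are hit.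
-/

set_option autoImplicit false

namespace Pool.Agent.Results.MP_7b7e48_nt.GoldbachOrDifferences

open Finset Filter

/-- the number of the pairs of primes `p > n > q` with `p + q = 2 n` -/
noncomputable def g (n : ℕ) : ℕ :=
  {x : ℕ × ℕ | x.1.Prime ∧ x.2.Prime ∧ x.1 + x.2 = 2 * n ∧ n < x.1 ∧ x.2 < n}.ncard

/-- the number of the primes `p ≤ x` with `p + h` prime -/
noncomputable def d (x h : ℕ) : ℕ := {p : ℕ | p ≤ x ∧ p.Prime ∧ (p + h).Prime}.ncard

open Classical in
theorem result (ε : ℝ) (hε : 0 < ε) : ∃ K C : ℕ, 1 ≤ K ∧ ∀ η : ℝ, 0 < η → ∀ᶠ N : ℕ in atTop,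
    ∀ u L : ℕ, 1 ≤ L → C * (u + L) ≤ N →
    ((((Ioc u (u + L)).filter (fun k => (d (12 * N) (2 * k) : ℝ) < (N : ℝ) ^ (1 - η))).card : ℝ) ≤
      8 * K * (L : ℝ) ^ (1 - 1 / (K : ℝ))) ∨
    (∀ b H : ℕ, C * (u + L) ≤ H → C * H ≤ N → b ≤ 2 * N →
      (N ≤ b → (1 / 6 - ε) * H ≤ (((Ico b (b + H)).filter (fun n =>
        (N : ℝ) ^ (1 - η) ≤ g n)).card : ℝ)) ∧
      (C * (u + L) ≤ b → (1 / 6 - ε) * H ≤ (((Ico b (b + H)).filter (fun n =>
        (N : ℝ) ^ (1 - η) ≤ d (12 * N) (2 * n))).card : ℝ))) :=
  Pool.Agent.X29.GOD.main ε hε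

end Pool.Agent.Results.MP_7b7e48_nt.GoldbachOrDifferences
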