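import Pool.Agent.X32.Uni.Gold2

/-!
# Every large even number is the sum of an isolated prime and an isolated almost prime

Let `L` be an arbitrary radius. There are `C`, `t` and `κ > 0` such that for EVERY large `n` and both signs `e = ±1`
there are offsets `u, v` such that for every interval `(A, B]` with `B < n`, `B - A ≥ θ n`, at least `κ (B - A) V`
integers `x` of the interval have the following properties, where `p = n - e x` and `m = n + e x`, so that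
`2 n = p + m`, `p ≠ m`:
* `p` is prime, and `m` is a product of at most two primes `> n ^ (1 / 9)`;
* every integer `w ≠ p, p + u` with `|w - p| ≤ L` and every integer `w ≠ m, m + v` with `|w - m| ≤ L` has a prime
  factor `≤ C`.
Here `V = ∏_{p ≤ n} (1 - ω(p) / p)`, where `ω(p)` is `1` if `p` divides `2 n` and `2` otherwise; so this is the
order of magnitude conjectured by Hardy and Littlewood for the number of the representations. One exceptional
offset is unavoidable: if `2 n + u` is divisible by all primes `≤ C`, then `p + u ≡ - m` modulo these primes, and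
`p + u` has no prime factor `≤ C`. For every colouring with `r` colours all but at most `δ (B - A) V` of these
`x` are covered by pairwise disjoint monochromatic progressions of `s` such `x` with differences `≤ (log n) ^ c`.
-/

set_option autoImplicit false

namespace Pool.Agent.Results.MP_7b7e48_nt.IsolatedSummands

open Finset

/-- the number of the zeros of `(n - x) (n + x)` modulo a prime `p` (that is, of the classes `± n`) -/
def omega (n p : ℕ) : ℕ := if p ∣ 2 * n then 1 else 2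

/-- the product of `1 - ω(p) / p` over the primes `p ≤ n` -/
noncomputable def V (n : ℕ) : ℝ := ∏ p ∈ (Icc 1 n).filter Nat.Prime, (1 - (omega n p : ℝ) / p)

/-- `v > 1` is a product of at most `r` primes, all of them larger than `y` -/
def Almost (r : ℕ) (y : ℝ) (v : ℕ) : Prop :=
  1 < v ∧ v.primeFactorsList.length ≤ r ∧ ∀ q : ℕ, q.Prime → q ∣ v → y < q

/-- every integer `w ≠ a, a + u` with `|w - a| ≤ L` has a prime factor `≤ C` -/
def Isolated (L C : ℕ) (u a : ℤ) : Prop :=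
  ∀ w : ℤ, w ≠ a → w ≠ a + u → |w - a| ≤ L → ∃ q : ℕ, q.Prime ∧ q ≤ C ∧ (q : ℤ) ∣ w

open Classical in
/-- the integers `x` of `(A, B]` for which there are `p = n - e x` and `m = n + e x` as described above -/
noncomputable def Good (n : ℕ) (e u v : ℤ) (L C t A B : ℕ) : Finset ℕ :=
  (Ioc A B).filter (fun x : ℕ => ∃ p m : ℕ, (p : ℤ) = n - e * x ∧ (m : ℤ) = n + e * x ∧
    p.Prime ∧ (n : ℝ) ^ (1 / (t : ℝ)) < p ∧ Almost 2 ((n : ℝ) ^ (1 / 9 : ℝ)) m ∧
    Almost t ((n : ℝ) ^ (1 / (t : ℝ))) m ∧ Isolated L C u p ∧ Isolated L C v m)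

/-- the terms `a, a + b, ..., a + (s - 1) b` of the progression `z = (a, b)` -/
def terms (s : ℕ) (z : ℕ × ℕ) : Finset ℕ := (range s).image (fun i => z.1 + i * z.2)

theorem almost_iff (r : ℕ) (y : ℝ) (v : ℕ) : Pool.Agent.X32.Uni.Almost r y (v : ℤ) ↔ Almost r y v := by
  unfold Pool.Agent.X32.Uni.Almost Almost
  rw [Nat.abs_cast, Int.natAbs_natCast]
  constructor
  · rintro ⟨h1, h2, h3⟩
    exact ⟨by exact_mod_cast h1, h2, fun q hq hd => h3 q hq (Int.natCast_dvd_natCast.2 hd)⟩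
  · rintro ⟨h1, h2, h3⟩
    exact ⟨by exact_mod_cast h1, h2, fun q hq hd => h3 q hq (Int.natCast_dvd_natCast.1 hd)⟩

theorem exc (S : Finset ℤ) (h : S.card < 2) : ∃ u : ℤ, ∀ h : ℤ, h ≠ 0 → (h ∉ S ↔ h ≠ u) := by
  rcases Nat.eq_zero_or_pos S.card with h0 | h0
  · refine ⟨0, fun h hh => ?_⟩
    rw [card_eq_zero.1 h0]
    simp [hh]
  · obtain ⟨u, hu⟩ := card_eq_one.1 (by omega : S.card = 1)
    refine ⟨u, fun h _ => ?_⟩
    rw [hu, mem_singleton]

theorem result (L : ℕ) : ∃ C t : ℕ, 1 ≤ t ∧ ∃ κ : ℝ, 0 < κ ∧ ∀ (s r : ℕ) (θ δ : ℝ), 1 ≤ s → 0 < θ → 0 < δ →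
    ∃ c n₀ : ℕ, ∀ n : ℕ, n₀ ≤ n → κ / Real.log n ^ 2 ≤ V n ∧ ∀ e : ℤ, (e = 1 ∨ e = -1) → ∃ u v : ℤ,
      ∀ A B : ℕ, B < n → θ * n ≤ (B : ℝ) - A →
        κ * ((B : ℝ) - A) * V n ≤ ((Good n e u v L C t A B).card : ℝ) ∧
        ∀ χ : ℕ → Fin r, ∃ P : Finset (ℕ × ℕ),
          (∀ z ∈ P, 1 ≤ z.2 ∧ (z.2 : ℝ) ≤ Real.log n ^ c ∧
            ∀ i < s, z.1 + i * z.2 ∈ Good n e u v L C t A B ∧ χ (z.1 + i * z.2) = χ z.1) ∧
          (P : Set (ℕ × ℕ)).PairwiseDisjoint (terms s) ∧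
          (((Good n e u v L C t A B \ P.biUnion (terms s)).card : ℕ) : ℝ) ≤ δ * ((B : ℝ) - A) * V n := by
  classical
  obtain ⟨C, t, ht, κ, hκ, H⟩ := Pool.Agent.X32.Uni.isoU 2 1 L (by norm_num)
  refine ⟨C, t, ht, κ, hκ, fun s r θ δ hs hθ hδ => ?_⟩
  obtain ⟨c, X₀, h⟩ := H 1 s r θ δ hs hθ hδ
  refine ⟨c, max X₀ 1, fun n hn => ?_⟩
  have hn0 : X₀ ≤ n := (le_max_left _ _).trans hn
  have hn1 : 1 ≤ n := (le_max_right _ _).trans hn
  refine ⟨?_, ?_⟩
  · have h1 := (h n hn0 _ _ (Pool.Agent.X32.Uni.sys_PM hn1 (Or.inl rfl))).1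
    rw [Pool.Agent.X32.Uni.VL_PM n n (Or.inl rfl)] at h1
    exact h1
  intro e he
  obtain ⟨_, Ex, hEx, h2⟩ := h n hn0 _ _ (Pool.Agent.X32.Uni.sys_PM hn1 he)
  obtain ⟨u, hu⟩ := exc (Ex 0) (hEx 0)
  obtain ⟨v, hv⟩ := exc (Ex 1) (hEx 1)
  refine ⟨u, v, fun A B hB hAB => ?_⟩
  have hgood : Pool.Agent.X32.Uni.GI ![-e, e] ![(n : ℤ), (n : ℤ)] Ex 0 1 L C t n A B = Good n e u v L C t A B := by
    ext x
    unfold Pool.Agent.X32.Uni.GI Good
    rw [mem_filter, mem_filter]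
    refine and_congr_right (fun hx => ?_)
    rw [mem_Ioc] at hx
    have hxn : (x : ℤ) < n := by exact_mod_cast lt_of_le_of_lt hx.2 hB
    have hx0 : (0 : ℤ) ≤ x := by positivity
    obtain ⟨p, hp⟩ : ∃ p : ℕ, (p : ℤ) = n - e * x := by
      refine ⟨((n : ℤ) - e * x).toNat, Int.toNat_of_nonneg ?_⟩
      rcases he with h | h <;> rw [h] <;> linarith
    obtain ⟨m, hm⟩ : ∃ m : ℕ, (m : ℤ) = n + e * x := by
      refine ⟨((n : ℤ) + e * x).toNat, Int.toNat_of_nonneg ?_⟩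
      rcases he with h | h <;> rw [h] <;> linarith
    have v0 : (![-e, e] : Fin 2 → ℤ) 0 * (x : ℤ) + (![(n : ℤ), (n : ℤ)] : Fin 2 → ℤ) 0 = (p : ℤ) := by
      rw [hp]
      simp only [Matrix.cons_val_zero]
      ring
    have v1 : (![-e, e] : Fin 2 → ℤ) 1 * (x : ℤ) + (![(n : ℤ), (n : ℤ)] : Fin 2 → ℤ) 1 = (m : ℤ) := by
      rw [hm]
      simp only [Matrix.cons_val_one, Matrix.cons_val_zero]
      ring
    have huniq : (∃ p m : ℕ, (p : ℤ) = n - e * x ∧ (m : ℤ) = n + e * x ∧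
        p.Prime ∧ (n : ℝ) ^ (1 / (t : ℝ)) < p ∧ Almost 2 ((n : ℝ) ^ (1 / 9 : ℝ)) m ∧
        Almost t ((n : ℝ) ^ (1 / (t : ℝ))) m ∧ Isolated L C u p ∧ Isolated L C v m) ↔
        (p.Prime ∧ (n : ℝ) ^ (1 / (t : ℝ)) < p ∧ Almost 2 ((n : ℝ) ^ (1 / 9 : ℝ)) m ∧
        Almost t ((n : ℝ) ^ (1 / (t : ℝ))) m ∧ Isolated L C u p ∧ Isolated L C v m) := by
      constructor
      · rintro ⟨p', m', h1, h2, h3⟩
        have e1 : p' = p := by
          have : (p' : ℤ) = p := by rw [h1, hp]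
          exact_mod_cast this
        have e2 : m' = m := by
          have : (m' : ℤ) = m := by rw [h2, hm]
          exact_mod_cast this
        rw [e1, e2] at h3
        exact h3
      · intro h3
        exact ⟨p, m, hp, hm, h3⟩
    rw [huniq, v0, v1, Int.natAbs_natCast, almost_iff]
    simp only [Fin.forall_fin_two, v0, v1, almost_iff]
    have hiso : ∀ (w : ℤ) (S : Finset ℤ) (z : ℤ), (∀ h : ℤ, h ≠ 0 → (h ∉ S ↔ h ≠ z)) →
        ((∀ h : ℤ, h ≠ 0 → |h| ≤ L → h ∉ S → ∃ q : ℕ, q.Prime ∧ q ≤ C ∧ (q : ℤ) ∣ w + h) ↔ Isolated L C z w) := by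
      intro w S z hz
      unfold Isolated
      constructor
      · intro h y h1 h2 h3
        obtain ⟨q, q1, q2, q3⟩ := h (y - w) (sub_ne_zero.2 h1) h3
          ((hz _ (sub_ne_zero.2 h1)).2 (fun h4 => h2 (by rw [← h4]; ring)))
        refine ⟨q, q1, q2, ?_⟩
        rwa [add_sub_cancel] at q3
      · intro h y h1 h2 h3
        exact h (w + y) (by simpa using h1) (fun h4 => (hz y h1).1 h3 (add_left_cancel h4)) (by simpa using h2)
    rw [hiso _ _ _ hu, hiso _ _ _ hv]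
    constructor
    · rintro ⟨h1, h2, ⟨h3, h4⟩, h5, h6⟩
      exact ⟨h1, h3.2.2 p h1 dvd_rfl, h2, h4, h5, h6⟩
    · rintro ⟨h1, h2, h3, h4, h5, h6⟩
      refine ⟨h1, h3, ⟨⟨h1.one_lt, ?_, ?_⟩, h4⟩, h5, h6⟩
      · rw [Nat.primeFactorsList_prime h1]
        exact ht
      · intro q hq hd
        rw [(Nat.prime_dvd_prime_iff_eq hq h1).1 hd]
        exact h2
  have h3 := h2 0 1 (by decide) A B hB.le hAB
  rw [hgood, Pool.Agent.X32.Uni.VL_PM n n he] at h3
  exact h3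

end Pool.Agent.Results.MP_7b7e48_nt.IsolatedSummands
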