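import Pool.Agent.X26.GB.Gold

/-!
# All patterns of Goldbach representations with common differences

For an even `N` we consider the primes `p` with `N - p` prime. For all even `N` outside a very thin set, and in every
window of length `≥ N / log ^ A N`, a positive proportion of the vectors `d` of the cube `[1, D] ^ m`, `D` between a power
of `log N` and the length of the window, has the following property for ALL sets `F ∋ 0` of vectors with entries less
than `k` at the same time: the number of the `p` for which all `p + ∑ f_i d_i` and all `N - p - ∑ f_i d_i`, `f ∈ F`, are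
primes has the order of magnitude (or more) which Hardy and Littlewood predict for these `2 |F|` linear forms. The same
holds for almost all members of thin families of even numbers of small additive energy, and, for every large even `N`, in
every set of representations which has a positive proportion of the conjectured number of elements.

Method: the relative Szemerédi theorem for sifted sets of `Pool.Agent.X26.GP` for the set `{0, -N}`; the number of
representations in windows for almost all members of families of small energy is from the starting library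
(`Pool.Agent.TH935.GF`, `Pool.Agent.W93`).
-/

set_option autoImplicit false

namespace Pool.Agent.Results.MP_7b7e48_nt.PatternsOfRepresentations

open Finset

/-- The number of the residue classes modulo `q` occupied by `T`. -/
def nu (T : Finset ℤ) (q : ℕ) : ℕ := (T.image (fun t : ℤ => t % q)).card

/-- The local factor `(1 - ν(q) / q) (1 - 1 / q) ^ (-|T|)`. -/
noncomputable def loc (T : Finset ℤ) (q : ℕ) : ℝ := (1 - (nu T q : ℝ) / q) / (1 - 1 / (q : ℝ)) ^ T.card

/-- The singular series `𝔖(T)`, the product of the local factors over all primes. -/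
noncomputable def Sing (T : Finset ℤ) : ℝ := ∏' q : Nat.Primes, loc T q

/-- The representations `N = p + (N - p)` with `p` in the window `(y₁, y₂]`. -/
def Rep (N y₁ y₂ : ℕ) : Finset ℕ := (Ioc y₁ y₂).filter (fun p => p.Prime ∧ (N - p).Prime)

/-- The set of the shifts `∑ f_i d_i` and `-N + ∑ f_i d_i`, `f ∈ F`. -/
def shifts {m : ℕ} (N : ℕ) (d : Fin m → ℕ) (F : Finset (Fin m → ℕ)) : Finset ℤ :=
  (({0, -(N : ℤ)} : Finset ℤ) ×ˢ F).image (fun p : ℤ × (Fin m → ℕ) => p.1 + ((∑ i, p.2 i * d i : ℕ) : ℤ))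

/-- At least `c D ^ m` vectors `d` with entries in `[1, D]` have the following property. For all sets `F` of vectors with
entries in `{0, ..., k - 1}` which contain the vector `0`, the `2 |F|` shifts `∑ f_i d_i` and `-N + ∑ f_i d_i` are
different and without local obstruction, and for at least `c 𝔖 (y₂ - y₁) / log ^ (2 |F|) N` elements `p` of `S`, `𝔖` the
singular series of the shifts, all `p + ∑ f_i d_i`, `f ∈ F`, are elements of `S`. -/
def AllPatterns (m k : ℕ) (c : ℝ) (N y₁ y₂ D : ℕ) (S : Finset ℕ) : Prop :=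
  ∃ G : Finset (Fin m → ℕ), (∀ d ∈ G, ∀ i, 1 ≤ d i ∧ d i ≤ D) ∧ c * (D : ℝ) ^ m ≤ G.card ∧
    ∀ d ∈ G, ∀ F : Finset (Fin m → ℕ), (∀ f ∈ F, ∀ i, f i < k) → (fun _ => 0) ∈ F →
      (shifts N d F).card = 2 * F.card ∧ (∀ q : ℕ, q.Prime → nu (shifts N d F) q < q) ∧
      c * (Sing (shifts N d F) * (((y₂ : ℝ) - y₁) / Real.log N ^ (2 * F.card))) ≤
        ((S.filter (fun p => ∀ f ∈ F, p + ∑ i, f i * d i ∈ S)).card : ℝ)

/-- For all windows in `(0, N]` of length `≥ N / log ^ A N` and all `D` between `log ^ B N` and the length of the window,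
`AllPatterns` is true for the set of all representations of `N` in the window. -/
def Good (m k : ℕ) (c : ℝ) (B A N : ℕ) : Prop :=
  ∀ y₁ y₂ D : ℕ, y₁ < y₂ → y₂ ≤ N → (N : ℝ) / Real.log N ^ A ≤ (y₂ : ℝ) - y₁ → Real.log N ^ B ≤ D →
    (D : ℝ) ≤ (y₂ : ℝ) - y₁ → AllPatterns m k c N y₁ y₂ D (Rep N y₁ y₂)

/-- The additive energy of order `h` of the family `s 1, ..., s M`: the number of solutions of
`s (v 1) + ... + s (v h) = s (w 1) + ... + s (w h)` with all `v i`, `w i` in `{1, ..., M}`. -/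
def energy (h M : ℕ) (s : ℕ → ℕ) : ℕ :=
  (((Fintype.piFinset fun _ : Fin h => Icc 1 M) ×ˢ (Fintype.piFinset fun _ : Fin h => Icc 1 M)).filter
    (fun q => ∑ i, s (q.1 i) = ∑ i, s (q.2 i))).card

theorem dense (m k : ℕ) {θ δ : ℝ} (hθ : 0 < θ) (hδ : 0 < δ) : ∃ c : ℝ, 0 < c ∧ ∃ B N₀ : ℕ, ∀ N : ℕ, N₀ ≤ N →
    Even N → ∀ y₁ y₂ D : ℕ, y₁ < y₂ → y₂ ≤ N → (N : ℝ) ^ θ ≤ (y₂ : ℝ) - y₁ → Real.log N ^ B ≤ D →
    (D : ℝ) ≤ (y₂ : ℝ) - y₁ → ∀ S : Finset ℕ, S ⊆ Rep N y₁ y₂ →
    δ * (((y₂ : ℝ) - y₁) * (N / (N.totient * Real.log N ^ 2))) ≤ S.card → AllPatterns m k c N y₁ y₂ D S := by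
  obtain ⟨c, hc, B, x₀, h⟩ := Pool.Agent.X26.GP.tup m k 2 1 le_rfl hθ hδ
  refine ⟨c, hc, B, max x₀ 3, ?_⟩
  intro N hN hE y₁ y₂ D h12 hy2 hy hD hDy S hS hSc
  have hN1 : 1 ≤ N := by omega
  have hT := Pool.Agent.X26.GB.TN_tup hN1 hE.two_dvd
  have hcast : ((y₂ - y₁ : ℕ) : ℝ) = (y₂ : ℝ) - y₁ := Nat.cast_sub h12.le
  have hioc : Ioc y₁ y₂ = Ioc y₁ (y₁ + (y₂ - y₁)) := by
    congr 1
    omega
  have hy0 : (0 : ℝ) ≤ (y₂ : ℝ) - y₁ := by rw [← hcast]; positivity
  obtain ⟨G, hG, hG1, hG2⟩ := h N (by omega) _ hT y₁ (y₂ - y₁) D (by rw [hcast]; exact hy) (by omega) hD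
    (by rw [← hcast] at hDy; exact_mod_cast hDy) S (by
      rw [← hioc]
      exact hS.trans (filter_subset _ _)) (by
      intro p hp
      have hp' := hS hp
      unfold Rep at hp'
      rw [mem_filter] at hp'
      left
      intro t ht
      rcases Pool.Agent.X26.GB.mem_TN.1 ht with rfl | rfl
      · simpa using hp'.2.1
      · have h1 := hp'.2.2.pos
        have h2 : ((p : ℤ) + -(N : ℤ)).natAbs = N - p := by omega
        rw [h2]
        exact hp'.2.2) (by
      refine le_trans ?_ hSc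
      rw [hcast]
      apply mul_le_mul_of_nonneg_left _ hδ.le
      apply mul_le_mul_of_nonneg_left _ hy0
      have h1 := Pool.Agent.X26.GB.Sing_le hN1
      have hl : 0 < Real.log N := Real.log_pos (by
        have : (3 : ℝ) ≤ N := by exact_mod_cast (show 3 ≤ N by omega)
        linarith)
      unfold Pool.Agent.Y843.AC.HL.gg
      rw [Pool.Agent.X26.GB.TN_card hN1, ← div_div]
      gcongr)
  refine ⟨G, ?_, hG1, ?_⟩
  · intro d hd i
    have := hG hd
    rw [Fintype.mem_piFinset] at this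
    exact mem_Icc.1 (this i)
  · intro d hd F hF hF0
    obtain ⟨g1, g2, g3⟩ := hG2 d hd F hF hF0
    refine ⟨g1, g2, ?_⟩
    rw [hcast] at g3
    refine le_trans (le_of_eq ?_) g3
    have e : Pool.Agent.Y843.AC.HL.gg (Pool.Agent.X26.GP.TF (Pool.Agent.X26.GB.TN N) d F) N =
        Sing (shifts N d F) / Real.log N ^ (2 * F.card) := by
      rw [← g1]
      rfl
    rw [e]
    ring

open Classical in
/-- Let `m, k ≥ 0`.
(1) For all `θ, δ > 0` there are `c > 0` and `B` such that for every large even `N`, every window `(y₁, y₂]` with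
`y₂ ≤ N` and `y₂ - y₁ ≥ N ^ θ`, every `D` between `log ^ B N` and `y₂ - y₁` and EVERY set `S` of representations of `N` in the
window with at least `δ (y₂ - y₁) N / (φ(N) log ² N)` elements, `AllPatterns` is true for `S`.
(2) There are `c > 0` and `B` such that for all `h ≥ 1`, `B₀`, `C₀`, `A`, `U` and all large `N`, in every family
`s 1, ..., s M` of even numbers `≤ B₀ N` with `energy h M s ≤ log ^ C₀ N M ^ (2h) / N` at most `M / log ^ U N` members
are not `Good`.
(3) With the same `c` and `B`, for all `A`, `U` and all large `N`, at most `N / log ^ U N` of the `n ≤ N` are such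
that `2 n` is not `Good`. -/
theorem result (m k : ℕ) :
    (∀ θ δ : ℝ, 0 < θ → 0 < δ → ∃ c : ℝ, 0 < c ∧ ∃ B N₀ : ℕ, ∀ N : ℕ, N₀ ≤ N →
      Even N → ∀ y₁ y₂ D : ℕ, y₁ < y₂ → y₂ ≤ N → (N : ℝ) ^ θ ≤ (y₂ : ℝ) - y₁ → Real.log N ^ B ≤ D →
      (D : ℝ) ≤ (y₂ : ℝ) - y₁ → ∀ S : Finset ℕ, S ⊆ Rep N y₁ y₂ →
      δ * (((y₂ : ℝ) - y₁) * (N / (N.totient * Real.log N ^ 2))) ≤ S.card → AllPatterns m k c N y₁ y₂ D S) ∧
    ∃ c : ℝ, 0 < c ∧ ∃ B : ℕ,
      (∀ h B₀ C₀ A U : ℕ, 1 ≤ h → ∃ N₀ : ℕ, ∀ N : ℕ, N₀ ≤ N → ∀ (M : ℕ) (s : ℕ → ℕ),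
        (∀ i ∈ Icc 1 M, s i ≤ B₀ * N ∧ 2 ∣ s i) →
        (energy h M s : ℝ) * N ≤ Real.log N ^ C₀ * (M : ℝ) ^ (2 * h) →
        (((Icc 1 M).filter (fun i => ¬ Good m k c B A (s i))).card : ℝ) ≤ M / Real.log N ^ U) ∧
      ∀ A U : ℕ, ∃ N₀ : ℕ, ∀ N : ℕ, N₀ ≤ N →
        (((Icc 1 N).filter (fun n => ¬ Good m k c B A (2 * n))).card : ℝ) ≤ N / Real.log N ^ U := by
  classical
  refine ⟨fun θ δ hθ hδ => dense m k hθ hδ, ?_⟩
  obtain ⟨c, hc, B, n₁, h1⟩ := dense m k (θ := 1 / 2) (δ := 1 / 4) (by norm_num) (by norm_num)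
  have hfam : ∀ h B₀ C₀ A U : ℕ, 1 ≤ h → ∃ N₀ : ℕ, ∀ N : ℕ, N₀ ≤ N → ∀ (M : ℕ) (s : ℕ → ℕ),
        (∀ i ∈ Icc 1 M, s i ≤ B₀ * N ∧ 2 ∣ s i) →
        (energy h M s : ℝ) * N ≤ Real.log N ^ C₀ * (M : ℝ) ^ (2 * h) →
        (((Icc 1 M).filter (fun i => ¬ Good m k c B A (s i))).card : ℝ) ≤ M / Real.log N ^ U := by
    intro h B₀ C₀ A U hh
    have hlogs : ∀ᶠ n : ℕ in Filter.atTop, Real.log n ^ A * (n : ℝ) ^ (1 / 2 : ℝ) ≤ n ∧ (1 : ℝ) ≤ Real.log n := by
      have h1 : ∀ᶠ x : ℝ in Filter.atTop, ‖Real.log x ^ (A : ℝ)‖ ≤ 1 * ‖x ^ (1 / 2 : ℝ)‖ :=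
        (isLittleO_log_rpow_rpow_atTop (A : ℝ) (show (0 : ℝ) < 1 / 2 by norm_num)).bound one_pos
      have h2 := (tendsto_natCast_atTop_atTop (R := ℝ)).eventually h1
      have h3 := (Real.tendsto_log_atTop.comp (tendsto_natCast_atTop_atTop (R := ℝ))).eventually_ge_atTop 1
      filter_upwards [h2, h3, Filter.eventually_ge_atTop 1] with n g1 g2 g3
      have g4 : (1 : ℝ) ≤ n := by exact_mod_cast g3
      have g5 : (1 : ℝ) ≤ Real.log n := g2
      rw [one_mul, Real.norm_of_nonneg (by positivity), Real.norm_of_nonneg (by positivity), Real.rpow_natCast] at g1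
      refine ⟨?_, g5⟩
      calc Real.log n ^ A * (n : ℝ) ^ (1 / 2 : ℝ) ≤ (n : ℝ) ^ (1 / 2 : ℝ) * (n : ℝ) ^ (1 / 2 : ℝ) := by gcongr
        _ = n := by rw [← Real.rpow_add (by linarith)]; norm_num
    obtain ⟨n₃, hn₃⟩ := Filter.eventually_atTop.1 hlogs
    obtain ⟨N₀, hN₀⟩ := Pool.Agent.TH935.GF.fam_win h B₀ C₀ A U (max (max n₁ n₃) 4) hh (1 / 2) (by norm_num)
      (fun n => Good m k c B A n) (by
      intro N hN h2 hW y₁ y₂ D h12 hy2 hy hD hDy
      obtain ⟨g1, g2⟩ := hn₃ N (by omega)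
      have hlA : 0 < Real.log N ^ A := by positivity
      have hXθ : (N : ℝ) ^ (1 / 2 : ℝ) ≤ (y₂ : ℝ) - y₁ := by
        rw [div_le_iff₀ hlA] at hy
        have : (N : ℝ) ^ (1 / 2 : ℝ) * Real.log N ^ A ≤ ((y₂ : ℝ) - y₁) * Real.log N ^ A := by
          calc _ = Real.log N ^ A * (N : ℝ) ^ (1 / 2 : ℝ) := mul_comm _ _
            _ ≤ N := g1
            _ ≤ _ := hy
        exact le_of_mul_le_mul_right this hlA
      exact h1 N (by omega) (even_iff_two_dvd.2 h2) y₁ y₂ D h12 hy2 hXθ hD hDy _ (Subset.refl _)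
        (Pool.Agent.X26.GB.WinP_low (by omega) h2 hW h12 hy2 hy))
    refine ⟨N₀, fun N hN M s hs hE => ?_⟩
    exact hN₀ N hN M s hs hE _ (filter_subset _ _) fun i hi => (mem_filter.1 hi).2
  refine ⟨c, hc, B, hfam, fun A U => ?_⟩
  obtain ⟨N₀, hN₀⟩ := hfam 1 2 0 A U le_rfl
  refine ⟨N₀, fun N hN => hN₀ N hN N (fun n => 2 * n) (fun n hn => ⟨?_, dvd_mul_right 2 n⟩) ?_⟩
  · have := (mem_Icc.1 hn).2
    show 2 * n ≤ 2 * N
    omega
  have h1 : energy 1 N (fun n => 2 * n) ≤ N := by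
    unfold energy
    calc _ ≤ (Icc 1 N).card := by
          apply Finset.card_le_card_of_injOn (fun q => q.1 0)
          · intro q hq
            have h2 := (Finset.mem_product.1 (Finset.mem_filter.1 (Finset.mem_coe.1 hq)).1).1
            exact Finset.mem_coe.2 (Fintype.mem_piFinset.1 h2 0)
          · intro q hq r hr hqr
            have h2 := (Finset.mem_filter.1 (Finset.mem_coe.1 hq)).2
            have h3 := (Finset.mem_filter.1 (Finset.mem_coe.1 hr)).2
            simp only [Fin.sum_univ_one] at h2 h3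
            have h4 : q.1 0 = r.1 0 := hqr
            apply Prod.ext
            · funext i
              rw [Subsingleton.elim i 0]; exact h4
            · funext i
              rw [Subsingleton.elim i 0]; omega
      _ = N := by simp
  have h2 : (energy 1 N (fun n => 2 * n) : ℝ) ≤ N := by exact_mod_cast h1
  have h3 : (0 : ℝ) ≤ N := Nat.cast_nonneg N
  rw [pow_zero, one_mul]
  calc (energy 1 N (fun n => 2 * n) : ℝ) * N ≤ N * N := by gcongr
    _ = (N : ℝ) ^ (2 * 1) := by ring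

end Pool.Agent.Results.MP_7b7e48_nt.PatternsOfRepresentations
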